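import Pool.Agent.MP_fc4263_co.Main

namespace Pool.Agent.Results.MP_fc4263_co.NoPositiveCheeger

open Pool.Agent.MPfc4263

/-- There is an infinite, connected, locally finite simple graph with uniform volume growth and
exponential growth all of whose infinite subgraphs have Cheeger constant `0`. -/
theorem result : ∃ (V : Type) (G : SimpleGraph V), Infinite V ∧ G.Connected ∧
    (∀ v, (G.neighborSet v).Finite) ∧ UniformVolumeGrowth G ∧ ExponentialGrowth G ∧
    ∀ H : G.Subgraph, H.verts.Infinite → cheeger H = 0 :=
  counterexample

end Pool.Agent.Results.MP_fc4263_co.NoPositiveCheeger
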